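import Pool.Agent.Y466.TQ.Stm2
import Pool.Agent.Y466.KS.Sum

/-! # The signature of `k E₈ ⊕ l H` -/

set_option autoImplicit false
set_option maxHeartbeats 4000000

namespace Pool.Agent.Y693.TQ

open Matrix
open scoped Kronecker
open Pool.Agent.Y466.TW (EH Hyp)
open Pool.Agent.Y466.KS (QF QF_apply le_sigPos_of_map)
open Pool.Agent.Y466.TQ (TSIG signature)

/-- the quadratic form of `E₈` -/
noncomputable def qe (y : Fin 8 → ℝ) : ℝ :=
  ∑ i, ∑ j, y i * ((CartanMatrix.E₈ i j : ℤ) : ℝ) * y j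

theorem qe_eq (y : Fin 8 → ℝ) : qe y = 2 * (y 0 - y 2 / 2) ^ 2 + 2 * (y 1 - y 3 / 2) ^ 2 +
    3 / 2 * (y 2 - 2 / 3 * y 3) ^ 2 + 5 / 6 * (y 3 - 6 / 5 * y 4) ^ 2 +
    4 / 5 * (y 4 - 5 / 4 * y 5) ^ 2 + 3 / 4 * (y 5 - 4 / 3 * y 6) ^ 2 +
    2 / 3 * (y 6 - 3 / 2 * y 7) ^ 2 + 1 / 2 * y 7 ^ 2 := by
  unfold qe
  simp only [Fin.sum_univ_eight, CartanMatrix.E₈]
  simp
  ring

theorem qe_nonneg (y : Fin 8 → ℝ) : 0 ≤ qe y := by
  rw [qe_eq]
  positivity

theorem qe_zero (y : Fin 8 → ℝ) (h : qe y = 0) : y = 0 := by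
  rw [qe_eq] at h
  have s0 := sq_nonneg (y 0 - y 2 / 2)
  have s1 := sq_nonneg (y 1 - y 3 / 2)
  have s2 := sq_nonneg (y 2 - 2 / 3 * y 3)
  have s3 := sq_nonneg (y 3 - 6 / 5 * y 4)
  have s4 := sq_nonneg (y 4 - 5 / 4 * y 5)
  have s5 := sq_nonneg (y 5 - 4 / 3 * y 6)
  have s6 := sq_nonneg (y 6 - 3 / 2 * y 7)
  have s7 := sq_nonneg (y 7)
  have h7 : y 7 = 0 := pow_eq_zero_iff two_ne_zero |>.1 (by linarith)
  have h6 : y 6 = 0 := by
    have := pow_eq_zero_iff two_ne_zero |>.1 (show (y 6 - 3 / 2 * y 7) ^ 2 = 0 by linarith)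
    linarith
  have h5 : y 5 = 0 := by
    have := pow_eq_zero_iff two_ne_zero |>.1 (show (y 5 - 4 / 3 * y 6) ^ 2 = 0 by linarith)
    linarith
  have h4 : y 4 = 0 := by
    have := pow_eq_zero_iff two_ne_zero |>.1 (show (y 4 - 5 / 4 * y 5) ^ 2 = 0 by linarith)
    linarith
  have h3 : y 3 = 0 := by
    have := pow_eq_zero_iff two_ne_zero |>.1 (show (y 3 - 6 / 5 * y 4) ^ 2 = 0 by linarith)
    linarith
  have h2 : y 2 = 0 := by
    have := pow_eq_zero_iff two_ne_zero |>.1 (show (y 2 - 2 / 3 * y 3) ^ 2 = 0 by linarith)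
    linarith
  have h1 : y 1 = 0 := by
    have := pow_eq_zero_iff two_ne_zero |>.1 (show (y 1 - y 3 / 2) ^ 2 = 0 by linarith)
    linarith
  have h0 : y 0 = 0 := by
    have := pow_eq_zero_iff two_ne_zero |>.1 (show (y 0 - y 2 / 2) ^ 2 = 0 by linarith)
    linarith
  funext i
  fin_cases i
  · exact h0
  · exact h1
  · exact h2
  · exact h3
  · exact h4
  · exact h5
  · exact h6
  · exact h7

section

variable {α β : Type} [Fintype α] [DecidableEq α] [Fintype β] [DecidableEq β]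

theorem QF_EH (x : (α × Fin 8) ⊕ (β ⊕ β) → ℝ) : QF (EH α β) x =
    ∑ a, qe (fun i => x (Sum.inl (a, i))) +
      2 * ∑ b, x (Sum.inr (Sum.inl b)) * x (Sum.inr (Sum.inr b)) := by
  rw [QF_apply]
  have h1 : ∀ p : α × Fin 8, ∑ j, x (Sum.inl p) * ((EH α β (Sum.inl p) j : ℤ) : ℝ) * x j =
      ∑ j : Fin 8, x (Sum.inl p) * ((CartanMatrix.E₈ p.2 j : ℤ) : ℝ) * x (Sum.inl (p.1, j)) := by
    intro p
    rw [Fintype.sum_sum_type]
    have e1 : ∀ q : β ⊕ β, EH α β (Sum.inl p) (Sum.inr q) = 0 := fun q => rfl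
    have e2 : ∀ q : α × Fin 8, EH α β (Sum.inl p) (Sum.inl q) =
        (1 : Matrix α α ℤ) p.1 q.1 * CartanMatrix.E₈ p.2 q.2 := fun q => rfl
    rw [Finset.sum_eq_zero (s := (Finset.univ : Finset (β ⊕ β)))
      (fun q _ => by rw [e1 q]; simp), add_zero, Fintype.sum_prod_type]
    rw [Finset.sum_eq_single p.1]
    · refine Finset.sum_congr rfl fun j _ => ?_
      rw [e2, Matrix.one_apply_eq, one_mul]
    · intro a _ ha
      refine Finset.sum_eq_zero fun j _ => ?_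
      rw [e2, Matrix.one_apply_ne ha.symm]
      simp
    · intro h
      exact absurd (Finset.mem_univ _) h
  have h2 : ∀ b : β, ∑ j, x (Sum.inr (Sum.inl b)) *
      ((EH α β (Sum.inr (Sum.inl b)) j : ℤ) : ℝ) * x j =
      x (Sum.inr (Sum.inl b)) * x (Sum.inr (Sum.inr b)) := by
    intro b
    rw [Fintype.sum_sum_type, Fintype.sum_sum_type]
    have e1 : ∀ q : α × Fin 8, EH α β (Sum.inr (Sum.inl b)) (Sum.inl q) = 0 := fun q => rfl
    have e2 : ∀ q : β, EH α β (Sum.inr (Sum.inl b)) (Sum.inr (Sum.inl q)) = 0 := fun q => rfl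
    have e3 : ∀ q : β, EH α β (Sum.inr (Sum.inl b)) (Sum.inr (Sum.inr q)) =
      (1 : Matrix β β ℤ) b q := fun q => rfl
    rw [Finset.sum_eq_zero (s := (Finset.univ : Finset (α × Fin 8)))
      (fun q _ => by rw [e1 q]; simp), zero_add,
      Finset.sum_eq_zero (s := (Finset.univ : Finset β)) (fun q _ => by rw [e2 q]; simp), zero_add,
      Finset.sum_eq_single b]
    · rw [e3, Matrix.one_apply_eq]
      simp
    · intro q _ hq
      rw [e3, Matrix.one_apply_ne hq.symm]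
      simp
    · intro h
      exact absurd (Finset.mem_univ _) h
  have h3 : ∀ b : β, ∑ j, x (Sum.inr (Sum.inr b)) *
      ((EH α β (Sum.inr (Sum.inr b)) j : ℤ) : ℝ) * x j =
      x (Sum.inr (Sum.inl b)) * x (Sum.inr (Sum.inr b)) := by
    intro b
    rw [Fintype.sum_sum_type, Fintype.sum_sum_type]
    have e1 : ∀ q : α × Fin 8, EH α β (Sum.inr (Sum.inr b)) (Sum.inl q) = 0 := fun q => rfl
    have e2 : ∀ q : β, EH α β (Sum.inr (Sum.inr b)) (Sum.inr (Sum.inr q)) = 0 := fun q => rfl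
    have e3 : ∀ q : β, EH α β (Sum.inr (Sum.inr b)) (Sum.inr (Sum.inl q)) =
      (1 : Matrix β β ℤ) b q := fun q => rfl
    have e4 : ∑ q : β, x (Sum.inr (Sum.inr b)) *
        ((EH α β (Sum.inr (Sum.inr b)) (Sum.inr (Sum.inr q)) : ℤ) : ℝ) *
          x (Sum.inr (Sum.inr q)) = 0 :=
      Finset.sum_eq_zero (fun q _ => by rw [e2 q]; simp)
    rw [Finset.sum_eq_zero (s := (Finset.univ : Finset (α × Fin 8)))
      (fun q _ => by rw [e1 q]; simp), zero_add, e4, add_zero, Finset.sum_eq_single b]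
    · rw [e3, Matrix.one_apply_eq]
      push_cast
      ring
    · intro q _ hq
      rw [e3, Matrix.one_apply_ne hq.symm]
      simp
    · intro h
      exact absurd (Finset.mem_univ _) h
  rw [Fintype.sum_sum_type, Fintype.sum_sum_type, Finset.sum_congr rfl (fun p _ => h1 p),
    Finset.sum_congr rfl (fun b _ => h2 b), Finset.sum_congr rfl (fun b _ => h3 b),
    Fintype.sum_prod_type]
  unfold qe
  ring

theorem pos_part : 8 * Fintype.card α + Fintype.card β ≤ sigPos (QF (EH α β)) := by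
  have h := le_sigPos_of_map (QF (EH α β))
    (LinearMap.funLeft ℝ ℝ (Sum.map id (Sum.elim id id) :
      (α × Fin 8) ⊕ (β ⊕ β) → (α × Fin 8) ⊕ β)) ?_
  · rw [Module.finrank_fintype_fun_eq_card, Fintype.card_sum, Fintype.card_prod,
      Fintype.card_fin] at h
    omega
  · intro w hw
    rw [QF_EH]
    have e1 : ∀ b : β, (LinearMap.funLeft ℝ ℝ (Sum.map id (Sum.elim id id) :
        (α × Fin 8) ⊕ (β ⊕ β) → (α × Fin 8) ⊕ β)) w (Sum.inr (Sum.inl b)) *
        (LinearMap.funLeft ℝ ℝ (Sum.map id (Sum.elim id id) :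
        (α × Fin 8) ⊕ (β ⊕ β) → (α × Fin 8) ⊕ β)) w (Sum.inr (Sum.inr b)) =
        w (Sum.inr b) ^ 2 := by
      intro b
      rw [sq]
      rfl
    have e2 : ∀ a : α, qe (fun i => (LinearMap.funLeft ℝ ℝ (Sum.map id (Sum.elim id id) :
        (α × Fin 8) ⊕ (β ⊕ β) → (α × Fin 8) ⊕ β)) w (Sum.inl (a, i))) =
        qe (fun i => w (Sum.inl (a, i))) := fun a => rfl
    rw [Finset.sum_congr rfl (fun b _ => e1 b), Finset.sum_congr rfl (fun a _ => e2 a)]
    have n1 : 0 ≤ ∑ a : α, qe (fun i => w (Sum.inl (a, i))) :=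
      Finset.sum_nonneg fun a _ => qe_nonneg _
    have n2 : 0 ≤ ∑ b : β, w (Sum.inr b) ^ 2 := Finset.sum_nonneg fun b _ => sq_nonneg _
    by_contra hcon
    have z1 : ∑ a : α, qe (fun i => w (Sum.inl (a, i))) = 0 := by linarith
    have z2 : ∑ b : β, w (Sum.inr b) ^ 2 = 0 := by linarith
    apply hw
    funext j
    rcases j with ⟨a, i⟩ | b
    · have h1 := (Finset.sum_eq_zero_iff_of_nonneg (fun a _ => qe_nonneg _)).1 z1 a
        (Finset.mem_univ a)
      exact congrFun (qe_zero _ h1) i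
    · have h1 := (Finset.sum_eq_zero_iff_of_nonneg (fun b _ => sq_nonneg _)).1 z2 b
        (Finset.mem_univ b)
      exact pow_eq_zero_iff two_ne_zero |>.1 h1

theorem neg_part : Fintype.card β ≤ sigNeg (QF (EH α β)) := by
  obtain ⟨ψ, hψ⟩ : ∃ ψ : (β → ℝ) →ₗ[ℝ] ((α × Fin 8) ⊕ (β ⊕ β) → ℝ),
      ∀ z, ψ z = Sum.elim (fun _ => 0) (Sum.elim z (fun b => -z b)) := by
    refine ⟨{ toFun := fun z => Sum.elim (fun _ => 0) (Sum.elim z (fun b => -z b))
              map_add' := ?_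
              map_smul' := ?_ }, fun z => rfl⟩
    · intro z w
      funext j
      rcases j with j | j | j
      · simp
      · rfl
      · simp
        ring
    · intro c z
      funext j
      rcases j with j | j | j
      · simp
      · rfl
      · simp
  have h := le_sigPos_of_map (-QF (EH α β)) ψ ?_
  · rw [Module.finrank_fintype_fun_eq_card, sigPos_neg] at h
    exact h
  · intro z hz
    rw [_root_.neg_apply, QF_EH, hψ]
    have e1 : ∀ a : α, qe (fun i => (Sum.elim (fun _ => 0) (Sum.elim z (fun b => -z b)) :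
        (α × Fin 8) ⊕ (β ⊕ β) → ℝ) (Sum.inl (a, i))) = 0 := by
      intro a
      unfold qe
      simp
    rw [Finset.sum_eq_zero (fun a _ => e1 a)]
    have e2 : ∀ b : β, (Sum.elim (fun _ => 0) (Sum.elim z (fun b => -z b)) :
        (α × Fin 8) ⊕ (β ⊕ β) → ℝ) (Sum.inr (Sum.inl b)) *
        (Sum.elim (fun _ => 0) (Sum.elim z (fun b => -z b)) :
        (α × Fin 8) ⊕ (β ⊕ β) → ℝ) (Sum.inr (Sum.inr b)) = -(z b ^ 2) := by
      intro b
      change z b * -z b = -(z b ^ 2)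
      ring
    rw [Finset.sum_congr rfl (fun b _ => e2 b), Finset.sum_neg_distrib]
    have n2 : 0 ≤ ∑ b : β, z b ^ 2 := Finset.sum_nonneg fun b _ => sq_nonneg _
    by_contra hcon
    have z2 : ∑ b : β, z b ^ 2 = 0 := by linarith
    apply hz
    funext b
    have h1 := (Finset.sum_eq_zero_iff_of_nonneg (fun b _ => sq_nonneg _)).1 z2 b
      (Finset.mem_univ b)
    exact pow_eq_zero_iff two_ne_zero |>.1 h1

end

theorem tsig : TSIG := by
  intro α β _ _ _ _
  have h1 := pos_part (α := α) (β := β)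
  have h2 := neg_part (α := α) (β := β)
  have h3 := QuadraticForm.sigPos_add_sigNeg_add_radical (Q := QF (EH α β))
  rw [Module.finrank_fintype_fun_eq_card, Fintype.card_sum, Fintype.card_sum, Fintype.card_prod,
    Fintype.card_fin] at h3
  change (sigPos (QF (EH α β)) : ℤ) - (sigNeg (QF (EH α β)) : ℤ) = 8 * Fintype.card α
  omega

end Pool.Agent.Y693.TQ
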